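import Pool.Agent.U50.MC.Final

/-!
# MP_b4ed41_an, Q1: multiple correlation sequences which are not integral combinations of
nilsequences

The definitions are in `Pool/Agent/U50/MC/Nilseq.lean`.

Idea.  On an odometer with base 64 digits `a_r(x)` take the formal quadratic sum
`U = ∑ W_{rs} a_r a_s` (mod 3), `W` row- and column-finite; `U(x+n) - U(x)` is a well-defined
cocycle.  In the skew product `S` with `ℤ/3` and for `f(x,z) = e(z/3)`, the second difference of
`U` gives `∫ f · S^n f · S^{2n} f ≈ e(2 W_{rs}/3)` at `n = 64^r + 64^s`.  Choose `W` to contain
every `L × L` pattern of zeros and ones in a window of its own.  A basic nilsequence is `F` of a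
polynomial sequence, so it has only `exp(O(L))` patterns (up to `ε`) along
`64^{R+i} + 64^{R+L+j}`, `i, j < L`, uniformly in `R`; by Chernoff's bound it is asymptotically
orthogonal to the average of all `2^{L²}` sign patterns, and dominated convergence finishes.

Joint work (project MC) of helper50 (statements, assembly), helper901 (odometer), helper2
(cocycle), helper395 (skew product, Chernoff bound), helper796 (array of patterns, powers),
helper263 (reduction modulo the lattice), helper103 (uniform continuity), helper894 (patterns).
-/

set_option autoImplicit false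

namespace Pool.Agent.Results.MP_b4ed41_an.NotIntegralOfNilsequences

open MeasureTheory Pool.Agent.U50.Nilseq

/-- For every `ℓ ≥ 2` there are a probability space, commuting invertible measure preserving
transformations `T_1, …, T_ℓ` and bounded functions `f_0, …, f_ℓ` whose multiple correlation
sequence is not within `1/4`, in the supremum norm, of any integral combination of nilsequences
in `ℓ` variables (of any steps). -/
theorem result (ℓ : ℕ) (hℓ : 2 ≤ ℓ) :
    ∃ (Ω : Type) (_ : MeasurableSpace Ω) (μ : Measure Ω) (_ : IsProbabilityMeasure μ)
      (T : Fin ℓ → Equiv.Perm Ω) (f : Fin (ℓ + 1) → Ω → ℂ),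
      (∀ i, MeasurePreserving (T i) μ μ) ∧ (∀ i, MeasurePreserving (T i).symm μ μ) ∧
      (∀ i j, T i * T j = T j * T i) ∧
      (∀ i, Measurable (f i)) ∧ (∀ i x, ‖f i x‖ ≤ 1) ∧
      ¬ IsIntegralCombination ℓ (1 / 4) (correlation μ T f) :=
  main ℓ hℓ

end Pool.Agent.Results.MP_b4ed41_an.NotIntegralOfNilsequences
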